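import Mathlib

/-! Bernoulli bond percolation on a graph, open clusters that contain the full binary tree, the
critical value, and the regular planar triangulations. -/

namespace Pool.Agent.W_MP_950aae_pr

open MeasureTheory

/-- The full binary tree `T₂`. Its vertices are the finite words in two letters, the root is the
empty word, and the two children of the word `w` are `w ++ [false]` and `w ++ [true]`. -/
def T2 : SimpleGraph (List Bool) where
  Adj u v := (∃ b, v = u ++ [b]) ∨ ∃ b, u = v ++ [b]
  symm := ⟨fun _ _ h => h.symm⟩
  loopless := ⟨by
    rintro u (⟨b, h⟩ | ⟨b, h⟩) <;> simpa using congrArg List.length h⟩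

section Percolation

variable {V : Type*} (G : SimpleGraph V)

/-- The law of the state of one edge: open (`true`) with probability `p`, closed (`false`) with
probability `1 - p`. -/
noncomputable def edgeLaw (p : unitInterval) : Measure Bool :=
  ENNReal.ofReal p • Measure.dirac true + ENNReal.ofReal (1 - p) • Measure.dirac false

/-- Bernoulli bond percolation on `G` with parameter `p`: the product over the edges of `G` of the
law of the state of one edge. -/
noncomputable def perc (p : unitInterval) : Measure (G.edgeSet → Bool) :=
  Measure.infinitePi fun _ => edgeLaw p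

/-- The subgraph formed by the open edges. -/
def openGraph (ω : G.edgeSet → Bool) : SimpleGraph V where
  Adj u v := ∃ h : G.Adj u v, ω ⟨s(u, v), h⟩ = true
  symm := ⟨by
    rintro u v ⟨h, hω⟩
    refine ⟨h.symm, ?_⟩
    rw [← hω]
    congr 2
    exact Sym2.eq_swap⟩
  loopless := ⟨fun u h => G.loopless.irrefl u h.1⟩

/-- The event `E` that some open cluster contains a subgraph isomorphic to the full binary
tree `T₂`. -/
def treeEvent : Set (G.edgeSet → Bool) :=
  {ω | ∃ C : (openGraph G ω).ConnectedComponent, T2.IsContained C.toSimpleGraph}

/-- The critical value `p_bt`, the infimum of the `p ∈ [0, 1]` for which the open clusters almost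
surely contain a full binary tree. -/
noncomputable def pbt : unitInterval :=
  sInf {p : unitInterval | perc G p (treeEvent G) = 1}

end Percolation

section Triangulation

/-- The relations `x² = y³ = (xy)ᵏ = 1`, where `x` is `false` and `y` is `true`. -/
def triRels (k : ℕ) : Set (FreeGroup Bool) :=
  {FreeGroup.of false ^ 2, FreeGroup.of true ^ 3, (FreeGroup.of false * FreeGroup.of true) ^ k}

/-- The `(2, 3, k)` triangle group `⟨x, y | x² = y³ = (xy)ᵏ = 1⟩`. -/
abbrev Tri (k : ℕ) : Type := PresentedGroup (triRels k)

/-- The generator `x` of order two, the half-turn about the midpoint of an edge. -/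
def triX (k : ℕ) : Tri k := PresentedGroup.of false

/-- The generator `y` of order three, the rotation about the centre of a triangle. -/
def triY (k : ℕ) : Tri k := PresentedGroup.of true

/-- The subgroup generated by `xy`, the stabilizer of a vertex. -/
def triR (k : ℕ) : Subgroup (Tri k) := Subgroup.zpowers (triX k * triY k)

/-- The `k`-regular planar triangulation `H_k` (`k ≥ 7`). The `(2, 3, k)` triangle group acts simply
transitively on the oriented edges of `H_k`, so that the vertices are the cosets of the stabilizer
`R = ⟨xy⟩` of a vertex, and the neighbours are the pairs `gR`, `gxR`. -/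
def Hk (k : ℕ) : SimpleGraph (Tri k ⧸ triR k) where
  Adj u v := u ≠ v ∧ ∃ g : Tri k, u = (g : Tri k ⧸ triR k) ∧ v = ((g * triX k : Tri k) : Tri k ⧸ triR k)
  symm := ⟨by
    rintro u v ⟨huv, g, hu, hv⟩
    refine ⟨huv.symm, g * triX k, hv, ?_⟩
    have hx : triX k * triX k = 1 := by
      have : (PresentedGroup.mk (triRels k)) (FreeGroup.of false ^ 2) = 1 :=
        PresentedGroup.one_of_mem (Or.inl rfl)
      rw [map_pow, pow_two] at this
      exact this
    rw [hu, mul_assoc, hx, mul_one]⟩
  loopless := ⟨fun u h => h.1 rfl⟩

end Triangulation

end Pool.Agent.W_MP_950aae_pr
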