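import Mathlib
import Pool.Agent.W_MP_950aae_pr.Defs

/-! The graph `H_k` is locally finite and transitive and contains a full binary tree if `k ≥ 7`. For
the last point the triangle group acts on the hyperboloid model `{(t, a, b)}` of the hyperbolic
plane, and the vertices of the tree are separated by disjoint sectors. -/

namespace Pool.Agent.W_MP_950aae_pr

open Real

/-- The point `(t, a, b)`. -/
abbrev Pt : Type := ℝ × ℝ × ℝ

/-- The half-turn about the midpoint of an edge at the base point. -/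
def mX (K σ : ℝ) (p : Pt) : Pt := (K * p.1 - σ * p.2.1, σ * p.1 - K * p.2.1, -p.2.2)

/-- Rotation by `θ` about the base point. -/
noncomputable def mR (θ : ℝ) (p : Pt) : Pt :=
  (p.1, cos θ * p.2.1 - sin θ * p.2.2, sin θ * p.2.1 + cos θ * p.2.2)

theorem mX_mX {K σ : ℝ} (h1 : σ ^ 2 = K ^ 2 - 1) (p : Pt) : mX K σ (mX K σ p) = p := by
  obtain ⟨t, a, b⟩ := p
  simp only [mX, Prod.mk.injEq]
  refine ⟨?_, ?_, ?_⟩
  · linear_combination (-t) * h1
  · linear_combination (-a) * h1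
  · ring

theorem mR_mR (θ θ' : ℝ) (p : Pt) : mR θ (mR θ' p) = mR (θ + θ') p := by
  obtain ⟨t, a, b⟩ := p
  simp only [mR, Prod.mk.injEq, cos_add, sin_add, true_and]
  constructor <;> ring

theorem mR_zero (p : Pt) : mR 0 p = p := by
  obtain ⟨t, a, b⟩ := p
  simp [mR]

theorem mXR {K σ θ : ℝ} (h1 : σ ^ 2 = K ^ 2 - 1) (h3 : K - K * cos θ = cos θ) (p : Pt) :
    mX K σ (mR θ (mX K σ (mR θ p))) = mR (-θ) (mX K σ p) := by
  have h2 : cos θ ^ 2 + sin θ ^ 2 = 1 := cos_sq_add_sin_sq θ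
  obtain ⟨t, a, b⟩ := p
  simp only [mX, mR, cos_neg, sin_neg, Prod.mk.injEq]
  set C := cos θ
  set S := sin θ
  refine ⟨?_, ?_, ?_⟩
  · linear_combination (-C * t) * h1 + ((K - 1) * t - σ * C * a + σ * S * b) * h3 - σ * a * h2
  · linear_combination (-C * a + S * b) * h1 + (σ * t - (K * C + 1) * a + S * K * b) * h3 -
      K * a * h2
  · linear_combination (-S * a - (1 + C) * b) * h3 - K * b * h2

/-- The half-turn as a permutation. -/
def pX {K σ : ℝ} (h1 : σ ^ 2 = K ^ 2 - 1) : Equiv.Perm Pt where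
  toFun := mX K σ
  invFun := mX K σ
  left_inv := mX_mX h1
  right_inv := mX_mX h1

/-- The rotation as a permutation. -/
noncomputable def pR (θ : ℝ) : Equiv.Perm Pt where
  toFun := mR θ
  invFun := mR (-θ)
  left_inv p := by rw [mR_mR, neg_add_cancel, mR_zero]
  right_inv p := by rw [mR_mR, add_neg_cancel, mR_zero]

theorem pR_pow (θ : ℝ) (n : ℕ) (p : Pt) : (pR θ ^ n) p = mR (n * θ) p := by
  induction n with
  | zero => simp [mR_zero]
  | succ n ih =>
    rw [pow_succ', Equiv.Perm.mul_apply, ih]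
    change mR θ (mR (n * θ) p) = _
    rw [mR_mR]
    congr 1
    push_cast
    ring

section Rep

variable {k : ℕ} {K σ : ℝ}

/-- The images of the generators. -/
noncomputable def gens (h1 : σ ^ 2 = K ^ 2 - 1) (θ : ℝ) : Bool → Equiv.Perm Pt
  | false => pX h1
  | true => pX h1 * pR θ

theorem rels (h1 : σ ^ 2 = K ^ 2 - 1) {θ : ℝ} (h3 : K - K * cos θ = cos θ)
    (hθ : (k : ℝ) * θ = 2 * π) : ∀ r ∈ triRels k, FreeGroup.lift (gens h1 θ) r = 1 := by
  have hXX : pX h1 * pX h1 = 1 := by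
    ext1 p
    exact mX_mX h1 p
  rintro r (rfl | rfl | rfl)
  · rw [map_pow, FreeGroup.lift_apply_of, pow_two]
    exact hXX
  · rw [map_pow, FreeGroup.lift_apply_of]
    ext1 p
    change mX K σ (mR θ (mX K σ (mR θ (mX K σ (mR θ p))))) = p
    rw [mXR h1 h3, mX_mX h1, mR_mR, neg_add_cancel, mR_zero]
  · rw [map_pow, map_mul, FreeGroup.lift_apply_of, FreeGroup.lift_apply_of]
    change (pX h1 * (pX h1 * pR θ)) ^ k = 1
    rw [← mul_assoc, hXX, one_mul]
    ext1 p
    rw [pR_pow, hθ]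
    obtain ⟨t, a, b⟩ := p
    simp [mR]

end Rep

section Sector

/-- The forward cone. -/
def Cone (p : Pt) : Prop := 0 < p.1 ∧ p.2.1 ^ 2 + p.2.2 ^ 2 ≤ p.1 ^ 2

/-- The open sector of half-angle `α` with apex the base point. -/
def Sec' (α : ℝ) (p : Pt) : Prop :=
  0 < sin α * p.2.1 + cos α * p.2.2 ∧ 0 < sin α * p.2.1 - cos α * p.2.2

theorem Cone.mR {p : Pt} (h : Cone p) (θ : ℝ) : Cone (mR θ p) := by
  obtain ⟨t, a, b⟩ := p
  refine ⟨h.1, ?_⟩
  have h2 : cos θ ^ 2 + sin θ ^ 2 = 1 := cos_sq_add_sin_sq θ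
  have := h.2
  simp only [W_MP_950aae_pr.mR] at this ⊢
  nlinarith

theorem Cone.mX {K σ : ℝ} (h1 : σ ^ 2 = K ^ 2 - 1) (hK : 0 < K) {p : Pt} (h : Cone p) :
    Cone (mX K σ p) := by
  obtain ⟨t, a, b⟩ := p
  obtain ⟨ht, hp⟩ := h
  simp only [W_MP_950aae_pr.mX, Cone] at ht hp ⊢
  constructor
  · have : (σ * a) ^ 2 < (K * t) ^ 2 := by nlinarith [sq_nonneg b, sq_nonneg a, sq_nonneg σ, mul_pos ht ht]
    have := abs_lt_of_sq_lt_sq this (by positivity)
    rw [abs_lt] at this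
    linarith
  · nlinarith

/-- `cos x ≤ cos β` for `x ∈ [β, 2π - β]`. -/
theorem cos_le_of_mem {β x : ℝ} (h0 : 0 ≤ β) (h1 : β ≤ x) (h2 : x ≤ 2 * π - β) :
    cos x ≤ cos β := by
  rcases le_total x π with h | h
  · exact cos_le_cos_of_nonneg_of_le_pi h0 h h1
  · rw [← cos_two_pi_sub x]
    exact cos_le_cos_of_nonneg_of_le_pi h0 (by linarith) (by linarith)

/-- Polar coordinates in the sector. -/
theorem Sec'.polar {α : ℝ} (h0 : 0 < α) (h1 : α < π / 2) {p : Pt} (h : Sec' α p) :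
    ∃ r φ : ℝ, 0 < r ∧ -α < φ ∧ φ < α ∧ p.2.1 = r * cos φ ∧ p.2.2 = r * sin φ := by
  obtain ⟨t, a, b⟩ := p
  simp only [Sec'] at h ⊢
  set z : ℂ := ⟨a, b⟩ with hz
  have ha : a = ‖z‖ * cos z.arg := by rw [Complex.norm_mul_cos_arg]
  have hb : b = ‖z‖ * sin z.arg := by rw [Complex.norm_mul_sin_arg]
  have hz0 : z ≠ 0 := by
    intro h0
    have e1 : a = 0 := by rw [ha, h0]; simp
    have e2 : b = 0 := by rw [hb, h0]; simp
    rw [e1, e2] at h
    simp at h
  have hr : 0 < ‖z‖ := norm_pos_iff.2 hz0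
  have hs1 : 0 < sin (α + z.arg) := by
    have : sin α * a + cos α * b = ‖z‖ * sin (α + z.arg) := by
      rw [sin_add]; nth_rewrite 1 [ha]; nth_rewrite 1 [hb]; ring
    rw [this] at h
    exact (mul_pos_iff_of_pos_left hr).1 h.1
  have hs2 : 0 < sin (α - z.arg) := by
    have : sin α * a - cos α * b = ‖z‖ * sin (α - z.arg) := by
      rw [sin_sub]; nth_rewrite 1 [ha]; nth_rewrite 1 [hb]; ring
    rw [this] at h
    exact (mul_pos_iff_of_pos_left hr).1 h.2
  have hp1 := Complex.neg_pi_lt_arg z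
  have hp2 := Complex.arg_le_pi z
  refine ⟨‖z‖, z.arg, hr, ?_, ?_, ha, hb⟩
  · by_contra hcon
    push Not at hcon
    exact absurd hs1 (not_lt.2 (sin_nonpos_of_nonpos_of_neg_pi_le (by linarith) (by linarith)))
  · by_contra hcon
    push Not at hcon
    exact absurd hs2 (not_lt.2 (sin_nonpos_of_nonpos_of_neg_pi_le (by linarith) (by linarith)))

variable {k : ℕ}

/-- The main estimate: the sectors of the two children lie in the sector of the parent. -/
theorem sec_step {α K σ : ℝ} (hα : 0 < α) (h14 : 14 * α ≤ 2 * π) (hσ : 0 < σ)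
    (h1 : σ ^ 2 = K ^ 2 - 1) (h3 : K - K * cos (2 * α) = cos (2 * α))
    {m : ℕ} (hm : m = 3 ∨ m = 4) {q : Pt} (hq : Cone q) (hs : Sec' α q) :
    Sec' α (mX K σ (mR (m * (2 * α)) q)) := by
  have hπ := pi_pos
  have hα2 : α < π / 2 := by linarith
  have hsin : 0 < sin α := sin_pos_of_pos_of_lt_pi hα (by linarith)
  obtain ⟨r, φ, hr, hφ1, hφ2, ha, hb⟩ := hs.polar hα hα2
  obtain ⟨t, a, b⟩ := q
  simp only at ha hb
  subst ha hb
  obtain ⟨ht, hrt⟩ := hq
  simp only at ht hrt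
  have hrt' : r ≤ t := by
    have h2 : cos φ ^ 2 + sin φ ^ 2 = 1 := cos_sq_add_sin_sq φ
    have : r ^ 2 ≤ t ^ 2 := by nlinarith
    exact le_of_sq_le_sq this ht.le
  -- the constant
  have hC1 : cos (2 * α) < 1 := by
    have := cos_sq_add_sin_sq α
    rw [cos_two_mul]
    nlinarith [mul_pos hsin hsin]
  have hC2 : 1 / 2 < cos (2 * α) := by
    rw [← cos_pi_div_three]
    exact cos_lt_cos_of_nonneg_of_le_pi (by linarith) (by linarith) (by linarith)
  have h2s : 2 * sin α ^ 2 = 1 - cos (2 * α) := by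
    rw [cos_two_mul]; linear_combination 2 * sin_sq_add_cos_sq α
  have hc3 : 0 ≤ cos (3 * α) := cos_nonneg_of_mem_Icc ⟨by linarith, by linarith⟩
  have hconst : cos (3 * α) < 2 * sin α ^ 2 * σ := by
    have e1 : (2 * sin α ^ 2 * σ) ^ 2 = 2 * cos (2 * α) - 1 := by
      rw [h2s, mul_pow, h1]
      linear_combination (K + cos (2 * α) - K * cos (2 * α)) * h3 
    have e2 : cos (3 * α) ^ 2 = (1 + cos (2 * α)) / 2 * (2 * cos (2 * α) - 1) ^ 2 := by
      rw [cos_three_mul, cos_two_mul]; ring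
    have e3 : cos (3 * α) ^ 2 < (2 * sin α ^ 2 * σ) ^ 2 := by
      rw [e1, e2]
      set C := cos (2 * α)
      have : (1 + C) / 2 * (2 * C - 1) < 1 := by nlinarith
      nlinarith
    exact lt_of_pow_lt_pow_left₀ 2 (by positivity) e3
  -- the bound for the four angles
  have hang : ∀ x : ℝ, 3 * α ≤ x → x ≤ 11 * α → r * cos x < 2 * sin α ^ 2 * σ * t := by
    intro x hx1 hx2
    have h5 : cos x ≤ cos (3 * α) := cos_le_of_mem (by linarith) hx1 (by linarith)
    calc r * cos x ≤ r * cos (3 * α) := mul_le_mul_of_nonneg_left h5 hr.le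
      _ ≤ t * cos (3 * α) := mul_le_mul_of_nonneg_right hrt' hc3
      _ < t * (2 * sin α ^ 2 * σ) := mul_lt_mul_of_pos_left hconst ht
      _ = _ := by ring
  have hK : 2 * sin α ^ 2 * K = cos (2 * α) := by rw [h2s]; linear_combination h3
  set ψ := φ + m * (2 * α) with hψ
  have hcosψ : cos (m * (2 * α)) * (r * cos φ) - sin (m * (2 * α)) * (r * sin φ) = r * cos ψ := by
    rw [hψ, cos_add]; ring
  have hsinψ : sin (m * (2 * α)) * (r * cos φ) + cos (m * (2 * α)) * (r * sin φ) = r * sin ψ := by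
    rw [hψ, sin_add]; ring
  have hs2 : cos α * (2 * sin α) = sin (2 * α) := by rw [sin_two_mul]; ring
  have hm' : (3 : ℝ) ≤ m ∧ (m : ℝ) ≤ 4 := by
    rcases hm with rfl | rfl <;> norm_num
  have hA := hang (ψ - 2 * α) (by rw [hψ]; nlinarith) (by rw [hψ]; nlinarith)
  have hB := hang (ψ + 2 * α) (by rw [hψ]; nlinarith) (by rw [hψ]; nlinarith)
  simp only [Sec', mX, mR]
  rw [hcosψ, hsinψ]
  rw [cos_sub] at hA
  rw [cos_add] at hB
  constructor
  · have : 2 * sin α * (sin α * (σ * t - K * (r * cos ψ)) + cos α * -(r * sin ψ)) =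
        2 * sin α ^ 2 * σ * t - r * (cos ψ * cos (2 * α) + sin ψ * sin (2 * α)) := by
      linear_combination (-(r * cos ψ)) * hK - (r * sin ψ) * hs2
    refine (mul_pos_iff_of_pos_left (show 0 < 2 * sin α by positivity)).1 ?_
    rw [this]; linarith
  · have : 2 * sin α * (sin α * (σ * t - K * (r * cos ψ)) - cos α * -(r * sin ψ)) =
        2 * sin α ^ 2 * σ * t - r * (cos ψ * cos (2 * α) - sin ψ * sin (2 * α)) := by
      linear_combination (-(r * cos ψ)) * hK + (r * sin ψ) * hs2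
    refine (mul_pos_iff_of_pos_left (show 0 < 2 * sin α by positivity)).1 ?_
    rw [this]; linarith

end Sector

end Pool.Agent.W_MP_950aae_pr
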