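import Mathlib
import Pool.Agent.W_MP_950aae_pr.Hyp

/-! `H_k` is locally finite and transitive, and contains a full binary tree if `k ≥ 7`. -/

set_option linter.unusedSectionVars false

namespace Pool.Agent.W_MP_950aae_pr

open Real

section Basic

variable (k : ℕ)

theorem triX_mul_self : triX k * triX k = 1 := by
  have : (PresentedGroup.mk (triRels k)) (FreeGroup.of false ^ 2) = 1 :=
    PresentedGroup.one_of_mem (Or.inl rfl)
  rw [map_pow, pow_two] at this
  exact this

theorem rot_pow : (triX k * triY k) ^ k = 1 := by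
  have : (PresentedGroup.mk (triRels k)) ((FreeGroup.of false * FreeGroup.of true) ^ k) = 1 :=
    PresentedGroup.one_of_mem (Or.inr (Or.inr rfl))
  rw [map_pow, map_mul] at this
  exact this

theorem Hk_locallyFinite (hk : 0 < k) (v : Tri k ⧸ triR k) : ((Hk k).neighborSet v).Finite := by
  obtain ⟨g, rfl⟩ := QuotientGroup.mk_surjective v
  have hR : (triR k : Set (Tri k)).Finite := by
    have hfo : IsOfFinOrder (triX k * triY k) :=
      isOfFinOrder_iff_pow_eq_one.2 ⟨k, hk, rot_pow k⟩
    exact hfo.finite_zpowers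
  refine (hR.image fun r => ((g * r * triX k : Tri k) : Tri k ⧸ triR k)).subset ?_
  rintro v ⟨-, g', h1, h2⟩
  have h3 : g⁻¹ * g' ∈ triR k := QuotientGroup.eq.1 h1
  refine ⟨g⁻¹ * g', h3, ?_⟩
  change ((g * (g⁻¹ * g') * triX k : Tri k) : Tri k ⧸ triR k) = v
  rw [h2, mul_inv_cancel_left]

/-- Left multiplication as an automorphism. -/
def leftIso (h : Tri k) : Hk k ≃g Hk k where
  toEquiv := MulAction.toPerm h
  map_rel_iff' := by
    have key : ∀ (h : Tri k) (u v : Tri k ⧸ triR k), (Hk k).Adj u v → (Hk k).Adj (h • u) (h • v) := by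
      rintro h u v ⟨huv, g, rfl, rfl⟩
      refine ⟨fun hc => huv (MulAction.injective h hc), h * g, rfl, ?_⟩
      rw [mul_assoc]; rfl
    intro u v
    constructor
    · intro huv
      have := key h⁻¹ _ _ huv
      simpa using this
    · exact key h u v

theorem Hk_transitive (u v : Tri k ⧸ triR k) : ∃ φ : Hk k ≃g Hk k, φ u = v := by
  obtain ⟨g, rfl⟩ := QuotientGroup.mk_surjective u
  obtain ⟨h, rfl⟩ := QuotientGroup.mk_surjective v
  refine ⟨leftIso k (h * g⁻¹), ?_⟩
  change (h * g⁻¹) • ((g : Tri k) : Tri k ⧸ triR k) = (h : Tri k ⧸ triR k)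
  rw [MulAction.Quotient.smul_coe, smul_eq_mul, inv_mul_cancel_right]

instance : Countable (Tri k ⧸ triR k) := by
  have h1 : Countable (Tri k) := (PresentedGroup.mk_surjective (triRels k)).countable
  exact QuotientGroup.mk_surjective.countable

end Basic

section Tree

/-- The number of turns. -/
def turn : Bool → ℕ
  | false => 3
  | true => 4

theorem turn_eq (b : Bool) : turn b = 3 ∨ turn b = 4 := by cases b <;> simp [turn]

/-- One step of the tree: turn, then cross the edge. -/
def stepElt (k : ℕ) (b : Bool) : Tri k := (triX k * triY k) ^ turn b * triX k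

/-- The element of the triangle group that moves the base vertex to the vertex of the word. -/
def treeElt (k : ℕ) (w : List Bool) : Tri k := (w.map (stepElt k)).prod

variable {k : ℕ} {α K σ : ℝ}

/-- The action of the triangle group. -/
noncomputable def Phi (h1 : σ ^ 2 = K ^ 2 - 1) (h3 : K - K * cos (2 * α) = cos (2 * α))
    (hθ : (k : ℝ) * (2 * α) = 2 * π) : Tri k →* Equiv.Perm Pt :=
  PresentedGroup.toGroup (rels h1 h3 hθ)

section

variable (h1 : σ ^ 2 = K ^ 2 - 1) (h3 : K - K * cos (2 * α) = cos (2 * α))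
    (hθ : (k : ℝ) * (2 * α) = 2 * π)

theorem Phi_X : Phi h1 h3 hθ (triX k) = pX h1 := PresentedGroup.toGroup.of (rels h1 h3 hθ)

theorem Phi_Y : Phi h1 h3 hθ (triY k) = pX h1 * pR (2 * α) :=
  PresentedGroup.toGroup.of (rels h1 h3 hθ)

theorem Phi_rot : Phi h1 h3 hθ (triX k * triY k) = pR (2 * α) := by
  rw [map_mul, Phi_X, Phi_Y, ← mul_assoc]
  have hXX : pX h1 * pX h1 = 1 := by
    ext1 p
    exact mX_mX h1 p
  rw [hXX, one_mul]

theorem Phi_step (b : Bool) (p : Pt) :
    Phi h1 h3 hθ (stepElt k b) p = mR (turn b * (2 * α)) (mX K σ p) := by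
  rw [stepElt, map_mul, map_pow, Phi_rot, Phi_X, Equiv.Perm.mul_apply, pR_pow]
  rfl

/-- The base point. -/
def o : Pt := (1, 0, 0)

theorem mR_o (θ : ℝ) : mR θ o = o := by simp [mR, o]

/-- The sector of the words. -/
def InS (α K σ : ℝ) (p : Pt) : Prop := Cone p ∧ Sec' α (mX K σ p)

variable (hα : 0 < α) (h14 : 14 * α ≤ 2 * π) (hσ : 0 < σ) (hK : 0 < K)

include hα h14 hσ hK

theorem inS_o : InS α K σ o := by
  have hsin : 0 < sin α := sin_pos_of_pos_of_lt_pi hα (by linarith [pi_pos])
  refine ⟨⟨by simp [o], by simp [o]⟩, ?_⟩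
  simp only [Sec', mX, o]
  constructor
  · have : 0 < sin α * σ := mul_pos hsin hσ
    simpa using this
  · have : 0 < sin α * σ := mul_pos hsin hσ
    simpa using this

include h1 h3 in
theorem inS_step (b : Bool) {p : Pt} (hp : InS α K σ p) :
    InS α K σ (Phi h1 h3 hθ (stepElt k b) p) := by
  rw [Phi_step]
  have hc : Cone (mX K σ p) := hp.1.mX h1 hK
  exact ⟨hc.mR _, sec_step hα h14 hσ h1 h3 (turn_eq b) hc hp.2⟩

theorem step_ne {p p' : Pt} (hp : InS α K σ p) (hp' : InS α K σ p') :
    Phi h1 h3 hθ (stepElt k false) p ≠ Phi h1 h3 hθ (stepElt k true) p' := by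
  rw [Phi_step, Phi_step]
  intro h
  have h2 := congrArg (mR (-(3 * (2 * α)))) h
  simp only [turn] at h2
  push_cast at h2
  rw [mR_mR, mR_mR, show -(3 * (2 * α)) + 3 * (2 * α) = 0 by ring,
    show -(3 * (2 * α)) + 4 * (2 * α) = 2 * α by ring, mR_zero] at h2
  have h4 := hp.2
  rw [h2] at h4
  have h5 := hp'.2
  generalize mX K σ p' = q at h4 h5
  obtain ⟨t, a, b⟩ := q
  simp only [Sec', mR] at h4 h5
  have h6 : sin α * (cos (2 * α) * a - sin (2 * α) * b) - cos α * (sin (2 * α) * a + cos (2 * α) * b)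
      = -(sin α * a + cos α * b) := by
    have e1 : sin (2 * α - α) = sin (2 * α) * cos α - cos (2 * α) * sin α := sin_sub _ _
    have e2 : cos (2 * α - α) = cos (2 * α) * cos α + sin (2 * α) * sin α := cos_sub _ _
    rw [show 2 * α - α = α by ring] at e1 e2
    linear_combination a * e1 + b * e2
  have := h4.2
  rw [h6] at this
  linarith [h5.1]

theorem step_ne_o (b : Bool) {p : Pt} (hp : InS α K σ p) :
    Phi h1 h3 hθ (stepElt k b) p ≠ o := by
  rw [Phi_step]
  intro h
  have h2 := congrArg (mR (-(turn b * (2 * α)))) h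
  rw [mR_mR, neg_add_cancel, mR_zero, mR_o] at h2
  have h4 := hp.2
  rw [h2] at h4
  simp [Sec', o] at h4

theorem inS_tree (w : List Bool) : InS α K σ (Phi h1 h3 hθ (treeElt k w) o) := by
  induction w with
  | nil =>
    rw [treeElt, List.map_nil, List.prod_nil, map_one]
    exact inS_o hα h14 hσ hK
  | cons b w ih =>
    rw [treeElt, List.map_cons, List.prod_cons, map_mul, Equiv.Perm.mul_apply]
    exact inS_step h1 h3 hθ hα h14 hσ hK b ih

theorem tree_inj : ∀ w w' : List Bool,
    Phi h1 h3 hθ (treeElt k w) o = Phi h1 h3 hθ (treeElt k w') o → w = w' := by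
  have hcons : ∀ b w, Phi h1 h3 hθ (treeElt k (b :: w)) o =
      Phi h1 h3 hθ (stepElt k b) (Phi h1 h3 hθ (treeElt k w) o) := by
    intro b w
    rw [treeElt, List.map_cons, List.prod_cons, map_mul, Equiv.Perm.mul_apply]
    rfl
  have hnil : Phi h1 h3 hθ (treeElt k []) o = o := by
    rw [treeElt, List.map_nil, List.prod_nil, map_one]
    rfl
  intro w
  induction w with
  | nil =>
    intro w' h
    cases w' with
    | nil => rfl
    | cons b w' =>
      rw [hnil, hcons] at h
      exact absurd h.symm (step_ne_o h1 h3 hθ hα h14 hσ hK b (inS_tree h1 h3 hθ hα h14 hσ hK w'))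
  | cons b w ih =>
    intro w' h
    cases w' with
    | nil =>
      rw [hnil, hcons] at h
      exact absurd h (step_ne_o h1 h3 hθ hα h14 hσ hK b (inS_tree h1 h3 hθ hα h14 hσ hK w))
    | cons b' w' =>
      rw [hcons, hcons] at h
      have hw := inS_tree h1 h3 hθ hα h14 hσ hK w
      have hw' := inS_tree h1 h3 hθ hα h14 hσ hK w'
      cases b <;> cases b'
      · rw [ih w' ((Phi h1 h3 hθ (stepElt k false)).injective h)]
      · exact absurd h (step_ne h1 h3 hθ hα h14 hσ hK hw hw')
      · exact absurd h.symm (step_ne h1 h3 hθ hα h14 hσ hK hw' hw)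
      · rw [ih w' ((Phi h1 h3 hθ (stepElt k true)).injective h)]

include h1 h3 hθ in
theorem contained_aux : T2.IsContained (Hk k) := by
  have hinj : Function.Injective fun w : List Bool => ((treeElt k w : Tri k) : Tri k ⧸ triR k) := by
    intro w w' h
    have h2 : (treeElt k w)⁻¹ * treeElt k w' ∈ triR k := QuotientGroup.eq.1 h
    obtain ⟨n, hn⟩ := Subgroup.mem_zpowers_iff.1 h2
    have h5 : (Phi h1 h3 hθ ((triX k * triY k) ^ n)) o = o := by
      rw [map_zpow, Phi_rot]
      have hfix : (pR (2 * α)) o = o := mR_o _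
      exact Function.IsFixedPt.perm_zpow hfix n
    rw [hn, map_mul, map_inv, Equiv.Perm.mul_apply] at h5
    have h6 := (Equiv.Perm.inv_eq_iff_eq).1 h5
    exact tree_inj h1 h3 hθ hα h14 hσ hK w w' h6.symm
  have hadj : ∀ (w : List Bool) (b : Bool), (Hk k).Adj ((treeElt k w : Tri k) : Tri k ⧸ triR k)
      ((treeElt k (w ++ [b]) : Tri k) : Tri k ⧸ triR k) := by
    intro w b
    refine ⟨fun h => ?_, treeElt k w * (triX k * triY k) ^ turn b, ?_, ?_⟩
    · have := congrArg List.length (hinj h)
      simp at this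
    · refine QuotientGroup.eq.2 ?_
      rw [inv_mul_cancel_left]
      exact Subgroup.npow_mem_zpowers _ _
    · rw [treeElt, List.map_append, List.prod_append, List.map_singleton, List.prod_singleton,
        stepElt, ← mul_assoc]
      rfl
  refine ⟨⟨⟨fun w => ((treeElt k w : Tri k) : Tri k ⧸ triR k), ?_⟩, hinj⟩⟩
  rintro u v (⟨b, rfl⟩ | ⟨b, rfl⟩)
  · exact hadj u b
  · exact (hadj v b).symm

end

/-- For `k ≥ 7` the triangulation `H_k` contains a full binary tree. -/
theorem Hk_contains {k : ℕ} (hk : 7 ≤ k) : T2.IsContained (Hk k) := by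
  have hk' : (7 : ℝ) ≤ k := by exact_mod_cast hk
  have hk0 : (0 : ℝ) < k := by linarith
  have hπ := pi_pos
  set α : ℝ := π / k with hαdef
  have hα : 0 < α := by positivity
  have hkα : (k : ℝ) * α = π := by rw [hαdef]; field_simp
  have h14 : 14 * α ≤ 2 * π := by nlinarith
  have hC1 : cos (2 * α) < 1 := by
    have : cos (2 * α) < cos 0 := cos_lt_cos_of_nonneg_of_le_pi le_rfl (by linarith) (by linarith)
    rwa [cos_zero] at this
  have hC2 : 1 / 2 < cos (2 * α) := by
    rw [← cos_pi_div_three]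
    exact cos_lt_cos_of_nonneg_of_le_pi (by linarith) (by linarith) (by linarith)
  set C := cos (2 * α) with hC
  have hK1 : 1 < C / (1 - C) := by rw [lt_div_iff₀ (by linarith)]; linarith
  have h3 : C / (1 - C) - C / (1 - C) * C = C := by
    have : 1 - C ≠ 0 := by linarith
    field_simp
  have hpos : 0 < (C / (1 - C)) ^ 2 - 1 := by nlinarith
  exact contained_aux (α := α) (K := C / (1 - C)) (σ := √((C / (1 - C)) ^ 2 - 1))
    (h1 := sq_sqrt hpos.le) (h3 := h3) (hθ := by linear_combination 2 * hkα) (hα := hα)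
    (h14 := h14) (hσ := sqrt_pos.2 hpos) (hK := by linarith)

end Tree

end Pool.Agent.W_MP_950aae_pr
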