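import Mathlib

/-! The van den Berg–Kesten inequality for increasing events of a finite product. -/

namespace Pool.Agent.W_MP_950aae_pr

open Finset

set_option linter.unusedSectionVars false

variable {ι : Type*} [DecidableEq ι]

/-- The weight of the set `s ⊆ J` of open coordinates. -/
noncomputable def wt (p : ℝ) (J s : Finset ι) : ℝ := p ^ s.card * (1 - p) ^ (J.card - s.card)

theorem wt_nonneg {p : ℝ} (h0 : 0 ≤ p) (h1 : p ≤ 1) (J s : Finset ι) : 0 ≤ wt p J s :=
  mul_nonneg (pow_nonneg h0 _) (pow_nonneg (sub_nonneg.2 h1) _)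

theorem wt_insert_not {p : ℝ} {J s : Finset ι} {i : ι} (hi : i ∉ J) (hs : s ⊆ J) :
    wt p (insert i J) s = (1 - p) * wt p J s := by
  unfold wt
  rw [card_insert_of_notMem hi]
  have := card_le_card hs
  rw [show J.card + 1 - s.card = (J.card - s.card) + 1 by omega, pow_succ]
  ring

theorem wt_insert_mem {p : ℝ} {J s : Finset ι} {i : ι} (hi : i ∉ J) (hs : s ⊆ J) :
    wt p (insert i J) (insert i s) = p * wt p J s := by
  unfold wt
  rw [card_insert_of_notMem hi, card_insert_of_notMem (fun h => hi (hs h))]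
  rw [show J.card + 1 - (s.card + 1) = (J.card - s.card) by omega, pow_succ]
  ring

/-- Expectation of `f` over the random subset of `J`. -/
noncomputable def ex (p : ℝ) (J : Finset ι) (f : Finset ι → ℝ) : ℝ :=
  ∑ s ∈ J.powerset, wt p J s * f s

theorem ex_insert {p : ℝ} {J : Finset ι} {i : ι} (hi : i ∉ J) (f : Finset ι → ℝ) :
    ex p (insert i J) f = (1 - p) * ex p J f + p * ex p J (fun s => f (insert i s)) := by
  unfold ex
  rw [sum_powerset_insert hi, mul_sum, mul_sum]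
  congr 1
  · refine sum_congr rfl fun s hs => ?_
    rw [wt_insert_not hi (mem_powerset.1 hs)]; ring
  · refine sum_congr rfl fun s hs => ?_
    rw [wt_insert_mem hi (mem_powerset.1 hs)]; ring

theorem ex_mono {p : ℝ} (h0 : 0 ≤ p) (h1 : p ≤ 1) {J : Finset ι} {f g : Finset ι → ℝ}
    (h : ∀ s ⊆ J, f s ≤ g s) : ex p J f ≤ ex p J g :=
  sum_le_sum fun s hs => mul_le_mul_of_nonneg_left (h s (mem_powerset.1 hs)) (wt_nonneg h0 h1 _ _)

theorem ex_congr {p : ℝ} {J : Finset ι} {f g : Finset ι → ℝ}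
    (h : ∀ s ⊆ J, f s = g s) : ex p J f = ex p J g :=
  sum_congr rfl fun s hs => by rw [h s (mem_powerset.1 hs)]

theorem ex_add (p : ℝ) (J : Finset ι) (f g : Finset ι → ℝ) :
    ex p J (fun s => f s + g s) = ex p J f + ex p J g := by
  unfold ex; rw [← sum_add_distrib]; exact sum_congr rfl fun s _ => by ring

theorem ex_mul (p : ℝ) (J : Finset ι) (a : ℝ) (f : Finset ι → ℝ) :
    ex p J (fun s => a * f s) = a * ex p J f := by
  unfold ex; rw [mul_sum]; exact sum_congr rfl fun s _ => by ring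

theorem ex_sum (p : ℝ) (J : Finset ι) {κ : Type*} (K : Finset κ) (f : κ → Finset ι → ℝ) :
    ex p J (fun s => ∑ k ∈ K, f k s) = ∑ k ∈ K, ex p J (f k) := by
  unfold ex
  rw [sum_comm]
  exact sum_congr rfl fun s _ => by rw [mul_sum]

open Classical in
/-- Indicator of a proposition. -/
noncomputable def ind (P : Prop) : ℝ := if P then 1 else 0

theorem ind_nonneg (P : Prop) : 0 ≤ ind P := by unfold ind; split_ifs <;> norm_num

theorem ind_mono {P Q : Prop} (h : P → Q) : ind P ≤ ind Q := by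
  unfold ind
  by_cases hP : P
  · simp [hP, h hP]
  · simp only [hP, if_false]; split_ifs <;> norm_num

theorem ind_congr {P Q : Prop} (h : P ↔ Q) : ind P = ind Q := by rw [propext h]

theorem ind_and (P Q : Prop) : ind (P ∧ Q) = ind P * ind Q := by
  unfold ind; by_cases hP : P <;> by_cases hQ : Q <;> simp [hP, hQ]

/-- `ind (P ∨ Q) + ind R ≤ ind P + ind Q` if `R` implies both `P` and `Q`. -/
theorem ind_or_add {P Q R : Prop} (h1 : R → P) (h2 : R → Q) :
    ind (P ∨ Q) + ind R ≤ ind P + ind Q := by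
  unfold ind
  by_cases hP : P <;> by_cases hQ : Q <;> by_cases hR : R <;> simp_all

/-- Left side of the inequality: some pair of the family occurs disjointly. -/
def Dis (𝓟 : Set (Finset ι × Finset ι)) (s : Finset ι) : Prop :=
  ∃ P ∈ 𝓟, Disjoint P.1 P.2 ∧ P.1 ⊆ s ∧ P.2 ⊆ s

/-- Right side of the inequality: the two parts of some pair occur in two copies. -/
def Two (𝓟 : Set (Finset ι × Finset ι)) (s t : Finset ι) : Prop :=
  ∃ P ∈ 𝓟, P.1 ⊆ s ∧ P.2 ⊆ t

theorem two_or (𝓟 𝓠 : Set (Finset ι × Finset ι)) (s t : Finset ι) :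
    Two (𝓟 ∪ 𝓠) s t ↔ Two 𝓟 s t ∨ Two 𝓠 s t := by
  unfold Two
  constructor
  · rintro ⟨P, hP | hP, h⟩
    · exact Or.inl ⟨P, hP, h⟩
    · exact Or.inr ⟨P, hP, h⟩
  · rintro (⟨P, hP, h⟩ | ⟨P, hP, h⟩)
    · exact ⟨P, Or.inl hP, h⟩
    · exact ⟨P, Or.inr hP, h⟩

/-- Erase `i` from the first components. -/
def er1 (i : ι) (𝓟 : Set (Finset ι × Finset ι)) : Set (Finset ι × Finset ι) :=
  (fun P => (P.1.erase i, P.2)) '' 𝓟

/-- Erase `i` from the second components. -/
def er2 (i : ι) (𝓟 : Set (Finset ι × Finset ι)) : Set (Finset ι × Finset ι) :=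
  (fun P => (P.1, P.2.erase i)) '' 𝓟

theorem two_er1 (i : ι) (𝓟 : Set (Finset ι × Finset ι)) (s t : Finset ι) :
    Two (er1 i 𝓟) s t ↔ Two 𝓟 (insert i s) t := by
  constructor
  · rintro ⟨_, ⟨P, hP, rfl⟩, h1, h2⟩
    exact ⟨P, hP, subset_insert_iff.2 h1, h2⟩
  · rintro ⟨P, hP, h1, h2⟩
    exact ⟨_, ⟨P, hP, rfl⟩, subset_insert_iff.1 h1, h2⟩

theorem two_er2 (i : ι) (𝓟 : Set (Finset ι × Finset ι)) (s t : Finset ι) :
    Two (er2 i 𝓟) s t ↔ Two 𝓟 s (insert i t) := by
  constructor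
  · rintro ⟨_, ⟨P, hP, rfl⟩, h1, h2⟩
    exact ⟨P, hP, h1, subset_insert_iff.2 h2⟩
  · rintro ⟨P, hP, h1, h2⟩
    exact ⟨_, ⟨P, hP, rfl⟩, h1, subset_insert_iff.1 h2⟩

theorem two_mono {𝓟 : Set (Finset ι × Finset ι)} {s t s' t' : Finset ι} (hs : s ⊆ s')
    (ht : t ⊆ t') (h : Two 𝓟 s t) : Two 𝓟 s' t' := by
  obtain ⟨P, hP, h1, h2⟩ := h
  exact ⟨P, hP, h1.trans hs, h2.trans ht⟩

/-- The van den Berg–Kesten inequality, for an arbitrary family of pairs. -/
theorem bk_aux {p : ℝ} (h0 : 0 ≤ p) (h1 : p ≤ 1) (J : Finset ι) :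
    ∀ 𝓟 : Set (Finset ι × Finset ι),
      ex p J (fun s => ind (Dis 𝓟 s)) ≤ ex p J (fun s => ex p J (fun t => ind (Two 𝓟 s t))) := by
  induction J using Finset.induction_on with
  | empty =>
    intro 𝓟
    have hw : wt p (∅ : Finset ι) ∅ = 1 := by simp [wt]
    simp only [ex, powerset_empty, sum_singleton, hw, one_mul]
    apply ind_mono
    rintro ⟨P, hP, -, h⟩
    exact ⟨P, hP, h⟩
  | insert i J hi ih =>
    intro 𝓟
    have hq : 0 ≤ 1 - p := sub_nonneg.2 h1
    rw [ex_insert hi]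
    -- the second term
    have hA : ex p J (fun s => ind (Dis 𝓟 (insert i s))) ≤
        ex p J (fun s => ind (Dis (er1 i 𝓟 ∪ er2 i 𝓟) s)) := by
      refine ex_mono h0 h1 fun s hs => ind_mono ?_
      rintro ⟨P, hP, hd, hP1, hP2⟩
      by_cases hi1 : i ∈ P.1
      · have hi2 : i ∉ P.2 := Finset.disjoint_left.1 hd hi1
        refine ⟨(P.1.erase i, P.2), Or.inl ⟨P, hP, rfl⟩, ?_, ?_, ?_⟩
        · exact hd.mono_left (erase_subset _ _)
        · exact subset_insert_iff.1 hP1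
        · exact (subset_insert_iff_of_notMem hi2).1 hP2
      · refine ⟨(P.1, P.2.erase i), Or.inr ⟨P, hP, rfl⟩, ?_, ?_, ?_⟩
        · exact hd.mono_right (erase_subset _ _)
        · exact (subset_insert_iff_of_notMem hi1).1 hP1
        · exact subset_insert_iff.1 hP2
    have hB := ih (er1 i 𝓟 ∪ er2 i 𝓟)
    have hC := ih 𝓟
    -- abbreviations
    set g00 := ex p J (fun s => ex p J (fun t => ind (Two 𝓟 s t))) with hg00
    set g10 := ex p J (fun s => ex p J (fun t => ind (Two 𝓟 (insert i s) t))) with hg10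
    set g01 := ex p J (fun s => ex p J (fun t => ind (Two 𝓟 s (insert i t)))) with hg01
    set g11 := ex p J (fun s => ex p J (fun t => ind (Two 𝓟 (insert i s) (insert i t)))) with hg11
    set u := ex p J (fun s => ex p J (fun t => ind (Two (er1 i 𝓟 ∪ er2 i 𝓟) s t))) with hu
    have hR : ex p (insert i J) (fun s => ex p (insert i J) (fun t => ind (Two 𝓟 s t))) =
        (1 - p) * ((1 - p) * g00 + p * g01) + p * ((1 - p) * g10 + p * g11) := by
      rw [ex_insert hi]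
      congr 1
      · congr 1
        rw [hg00, hg01, ← ex_mul, ← ex_mul, ← ex_add]
        exact ex_congr fun s _ => ex_insert hi _
      · congr 1
        rw [hg10, hg11, ← ex_mul, ← ex_mul, ← ex_add]
        exact ex_congr fun s _ => ex_insert hi _
    rw [hR]
    have h1' : u + g00 ≤ g10 + g01 := by
      rw [hu, hg00, hg10, hg01, ← ex_add, ← ex_add]
      refine ex_mono h0 h1 fun s _ => ?_
      rw [← ex_add, ← ex_add]
      refine ex_mono h0 h1 fun t _ => ?_
      rw [ind_congr (two_or _ _ _ _), ind_congr (two_er1 i 𝓟 s t).symm,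
        ind_congr (two_er2 i 𝓟 s t).symm]
      refine ind_or_add (fun h => ?_) (fun h => ?_)
      · exact (two_er1 i 𝓟 s t).2 (two_mono (subset_insert _ _) subset_rfl h)
      · exact (two_er2 i 𝓟 s t).2 (two_mono subset_rfl (subset_insert _ _) h)
    have h2' : u ≤ g11 := by
      rw [hu, hg11]
      refine ex_mono h0 h1 fun s _ => ex_mono h0 h1 fun t _ => ind_mono fun h => ?_
      rcases (two_or _ _ _ _).1 h with h | h
      · exact two_mono subset_rfl (subset_insert _ _) ((two_er1 i 𝓟 s t).1 h)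
      · exact two_mono (subset_insert _ _) subset_rfl ((two_er2 i 𝓟 s t).1 h)
    have h3 : ex p J (fun s => ind (Dis 𝓟 (insert i s))) ≤ u := hA.trans hB
    nlinarith [mul_le_mul_of_nonneg_left h3 h0, mul_le_mul_of_nonneg_left hC hq,
      mul_le_mul_of_nonneg_left h1' (mul_nonneg h0 hq),
      mul_le_mul_of_nonneg_left h2' (mul_nonneg h0 h0)]

/-- The van den Berg–Kesten inequality for two increasing events given by their witness sets. -/
theorem bk {p : ℝ} (h0 : 0 ≤ p) (h1 : p ≤ 1) (J : Finset ι) (𝒜 ℬ : Set (Finset ι)) :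
    ex p J (fun s => ind (∃ A ∈ 𝒜, ∃ B ∈ ℬ, Disjoint A B ∧ A ⊆ s ∧ B ⊆ s)) ≤
      ex p J (fun s => ind (∃ A ∈ 𝒜, A ⊆ s)) * ex p J (fun s => ind (∃ B ∈ ℬ, B ⊆ s)) := by
  have h := bk_aux h0 h1 J (𝒜 ×ˢ ℬ)
  refine le_trans (le_of_eq ?_) (h.trans (le_of_eq ?_))
  · refine ex_congr fun s _ => ind_congr ?_
    constructor
    · rintro ⟨A, hA, B, hB, h⟩
      exact ⟨(A, B), ⟨hA, hB⟩, h⟩
    · rintro ⟨⟨A, B⟩, ⟨hA, hB⟩, h⟩
      exact ⟨A, hA, B, hB, h⟩
  · rw [mul_comm, ← ex_mul]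
    refine ex_congr fun s _ => ?_
    rw [mul_comm, ← ex_mul]
    refine ex_congr fun t _ => ?_
    rw [← ind_and]
    refine ind_congr ?_
    constructor
    · rintro ⟨⟨A, B⟩, ⟨hA, hB⟩, h1, h2⟩
      exact ⟨⟨A, hA, h1⟩, ⟨B, hB, h2⟩⟩
    · rintro ⟨⟨A, hA, h1⟩, ⟨B, hB, h2⟩⟩
      exact ⟨(A, B), ⟨hA, hB⟩, h1, h2⟩

end Pool.Agent.W_MP_950aae_pr
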