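import Mathlib
import Pool.Agent.W_MP_950aae_pr.Defs
import Pool.Agent.W_MP_950aae_pr.BK

/-! Binary trees of finite depth in the open subgraph. -/

namespace Pool.Agent.W_MP_950aae_pr

open MeasureTheory Finset

variable {V : Type*} {G : SimpleGraph V}

/-- `f` embeds the full binary tree of depth `n` into `K`, the root going to `x`. -/
def Emb (K : SimpleGraph V) (n : ℕ) (x : V) (f : List Bool → V) : Prop :=
  f [] = x ∧ (∀ u v : List Bool, u.length ≤ n → v.length ≤ n → f u = f v → u = v) ∧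
    ∀ (w : List Bool) (b : Bool), w.length < n → K.Adj (f w) (f (w ++ [b]))

/-- `x` is the root of a binary tree of depth `n` in `K`. -/
def TreeTo (K : SimpleGraph V) (n : ℕ) (x : V) : Prop := ∃ f, Emb K n x f

theorem Emb.mono {K : SimpleGraph V} {m n : ℕ} {x : V} {f : List Bool → V} (hmn : m ≤ n)
    (h : Emb K n x f) : Emb K m x f :=
  ⟨h.1, fun u v hu hv => h.2.1 u v (hu.trans hmn) (hv.trans hmn),
    fun w b hw => h.2.2 w b (hw.trans_le hmn)⟩

theorem TreeTo.mono {K : SimpleGraph V} {m n : ℕ} {x : V} (hmn : m ≤ n) (h : TreeTo K n x) :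
    TreeTo K m x := by
  obtain ⟨f, hf⟩ := h
  exact ⟨f, hf.mono hmn⟩

theorem Emb.mono_graph {K K' : SimpleGraph V} {n : ℕ} {x : V} {f : List Bool → V} (hK : K ≤ K')
    (h : Emb K n x f) : Emb K' n x f :=
  ⟨h.1, h.2.1, fun w b hw => hK (h.2.2 w b hw)⟩

theorem openGraph_le (ω : G.edgeSet → Bool) : openGraph G ω ≤ G := fun _ _ h => h.1

/-- The subtree at the child `b` of the root. -/
theorem Emb.sub {K : SimpleGraph V} {n : ℕ} {x : V} {f : List Bool → V} (h : Emb K (n + 1) x f)
    (b : Bool) : Emb K n (f [b]) (fun w => f (b :: w)) := by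
  refine ⟨rfl, fun u v hu hv huv => ?_, fun w c hw => ?_⟩
  · have := h.2.1 (b :: u) (b :: v) (by simpa using hu) (by simpa using hv) huv
    exact (List.cons.inj this).2
  · have := h.2.2 (b :: w) c (by simpa using hw)
    simpa using this

/-- The edge of `G` below the word `w` in direction `b`, as a set. -/
def Wit (G : SimpleGraph V) (n : ℕ) (x : V) : Set (Finset G.edgeSet) :=
  {A | ∃ f : List Bool → V, Emb G n x f ∧ ∀ e : G.edgeSet, e ∈ A ↔
    ∃ (w : List Bool) (b : Bool), w.length < n ∧ (e : Sym2 V) = s(f w, f (w ++ [b]))}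

theorem finite_words (n : ℕ) : {w : List Bool | w.length < n}.Finite := List.finite_length_lt Bool n

theorem exists_edges {n : ℕ} {x : V} {f : List Bool → V} (_hf : Emb G n x f) :
    ∃ A : Finset G.edgeSet, ∀ e : G.edgeSet, e ∈ A ↔
      ∃ (w : List Bool) (b : Bool), w.length < n ∧ (e : Sym2 V) = s(f w, f (w ++ [b])) := by
  have hfin : {e : G.edgeSet | ∃ (w : List Bool) (b : Bool), w.length < n ∧
      (e : Sym2 V) = s(f w, f (w ++ [b]))}.Finite := by
    have h1 : ((fun q : List Bool × Bool => s(f q.1, f (q.1 ++ [q.2]))) ''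
        ({w : List Bool | w.length < n} ×ˢ Set.univ)).Finite :=
      ((finite_words n).prod Set.finite_univ).image _
    refine (h1.preimage (f := fun e : G.edgeSet => (e : Sym2 V))
      Subtype.val_injective.injOn).subset ?_
    rintro e ⟨w, b, hw, he⟩
    exact ⟨(w, b), ⟨hw, trivial⟩, he.symm⟩
  exact ⟨hfin.toFinset, fun e => by simp⟩

theorem treeTo_iff (ω : G.edgeSet → Bool) (n : ℕ) (x : V) :
    TreeTo (openGraph G ω) n x ↔ ∃ A ∈ Wit G n x, ∀ e ∈ A, ω e = true := by
  constructor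
  · rintro ⟨f, hf⟩
    have hf' := hf.mono_graph (openGraph_le ω)
    obtain ⟨A, hA⟩ := exists_edges hf'
    refine ⟨A, ⟨f, hf', hA⟩, fun e he => ?_⟩
    obtain ⟨w, b, hw, h⟩ := (hA e).1 he
    obtain ⟨h1, h2⟩ := hf.2.2 w b hw
    rw [← h2]
    congr 1
    exact Subtype.ext h
  · rintro ⟨A, ⟨f, hf, hA⟩, hω⟩
    refine ⟨f, hf.1, hf.2.1, fun w b hw => ?_⟩
    have h1 := hf.2.2 w b hw
    exact ⟨h1, hω _ ((hA ⟨s(f w, f (w ++ [b])), h1⟩).2 ⟨w, b, hw, rfl⟩)⟩

/-- Words whose vertices can lie on an edge of the tree. -/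
theorem Wit.split {n : ℕ} {x : V} {A : Finset G.edgeSet} (hA : A ∈ Wit G (n + 1) x) :
    ∃ y z, G.Adj x y ∧ G.Adj x z ∧ ∃ B ∈ Wit G n y, ∃ C ∈ Wit G n z, Disjoint B C ∧ B ⊆ A ∧ C ⊆ A := by
  obtain ⟨f, hf, hA⟩ := hA
  obtain ⟨B, hB⟩ := exists_edges (hf.sub false)
  obtain ⟨C, hC⟩ := exists_edges (hf.sub true)
  have hadj : ∀ b, G.Adj x (f [b]) := fun b => by
    have := hf.2.2 [] b (by simp)
    rw [hf.1] at this
    simpa using this
  refine ⟨f [false], f [true], hadj false, hadj true, B, ⟨_, hf.sub false, hB⟩, C,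
    ⟨_, hf.sub true, hC⟩, ?_, ?_, ?_⟩
  · rw [Finset.disjoint_left]
    intro e heB heC
    obtain ⟨w, b, hw, h1⟩ := (hB e).1 heB
    obtain ⟨w', b', hw', h2⟩ := (hC e).1 heC
    rw [h1, Sym2.eq_iff] at h2
    have key : ∀ u u' : List Bool, u.length ≤ n → u'.length ≤ n →
        f (false :: u) ≠ f (true :: u') := by
      intro u u' hu hu' h
      have := hf.2.1 (false :: u) (true :: u') (by simpa using hu) (by simpa using hu') h
      simp at this
    rcases h2 with ⟨h2, -⟩ | ⟨h2, -⟩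
    · exact key w w' hw.le hw'.le h2
    · exact key w (w' ++ [b']) hw.le (by simp; omega) h2
  · intro e he
    obtain ⟨w, b, hw, h1⟩ := (hB e).1 he
    exact (hA e).2 ⟨false :: w, b, by simpa using hw, by simpa using h1⟩
  · intro e he
    obtain ⟨w, b, hw, h1⟩ := (hC e).1 he
    exact (hA e).2 ⟨true :: w, b, by simpa using hw, by simpa using h1⟩

/-- In a locally finite graph, only finitely many edges lie on the trees of depth `n` at `x`. -/
theorem finite_support (hG : ∀ v, (G.neighborSet v).Finite) (n : ℕ) :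
    ∀ x, {e : G.edgeSet | ∃ A ∈ Wit G n x, e ∈ A}.Finite := by
  induction n with
  | zero =>
    intro x
    convert Set.finite_empty
    ext e
    simp only [Set.mem_ofPred_eq, Set.mem_empty_iff_false, iff_false]
    rintro ⟨A, ⟨f, -, hA⟩, he⟩
    obtain ⟨w, b, hw, -⟩ := (hA e).1 he
    exact absurd hw (Nat.not_lt_zero _)
  | succ n ih =>
    intro x
    have h1 : ((fun y => s(x, y)) '' G.neighborSet x).Finite := (hG x).image _
    have h1' := h1.preimage (f := fun e : G.edgeSet => (e : Sym2 V)) Subtype.val_injective.injOn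
    have h2 : (⋃ y ∈ G.neighborSet x, {e : G.edgeSet | ∃ A ∈ Wit G n y, e ∈ A}).Finite :=
      (hG x).biUnion fun y _ => ih y
    refine (h1'.union h2).subset ?_
    rintro e ⟨A, ⟨f, hf, hA⟩, he⟩
    obtain ⟨w, b, hw, h⟩ := (hA e).1 he
    have hadj : ∀ b, G.Adj x (f [b]) := fun b => by
      have := hf.2.2 [] b (by simp)
      rw [hf.1] at this
      simpa using this
    cases w with
    | nil =>
      left
      refine ⟨f [b], hadj b, ?_⟩
      change s(x, f [b]) = (e : Sym2 V)
      rw [h, hf.1]; rfl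
    | cons c w =>
      right
      refine Set.mem_biUnion (hadj c) ?_
      obtain ⟨B, hB⟩ := exists_edges (hf.sub c)
      refine ⟨B, ⟨_, hf.sub c, hB⟩, (hB e).2 ⟨w, b, by simpa using hw, by simpa using h⟩⟩

end Pool.Agent.W_MP_950aae_pr
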