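import Mathlib
import Pool.Agent.W_MP_950aae_pr.Tree

/-! Probabilities of cylinder events as finite sums, and the recursion. -/

namespace Pool.Agent.W_MP_950aae_pr

open MeasureTheory Finset

instance (p : unitInterval) : IsProbabilityMeasure (edgeLaw p) := by
  constructor
  simp only [edgeLaw, Measure.coe_add, Measure.coe_smul, Pi.add_apply, Pi.smul_apply,
    measure_univ, smul_eq_mul, mul_one]
  rw [← ENNReal.ofReal_add p.2.1 (sub_nonneg.2 p.2.2)]
  simp

theorem edgeLaw_true (p : unitInterval) : edgeLaw p {true} = ENNReal.ofReal p := by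
  simp [edgeLaw]

theorem edgeLaw_false (p : unitInterval) : edgeLaw p {false} = ENNReal.ofReal (1 - p) := by
  simp [edgeLaw]

section Cyl

variable {ι : Type*} [DecidableEq ι]

/-- The open coordinates in `J`. -/
def opn (J : Finset ι) (ω : ι → Bool) : Finset ι := J.filter fun i => ω i = true

theorem measurableSet_opn (J s : Finset ι) : MeasurableSet {ω : ι → Bool | opn J ω = s} := by
  have : {ω : ι → Bool | opn J ω = s} =
      (fun ω (i : J) => ω i) ⁻¹' {η | J.attach.filter (fun i => η i = true) =
        s.subtype (· ∈ J) ∧ s ⊆ J} := by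
    ext ω
    simp only [Set.mem_ofPred_eq, Set.mem_preimage, opn]
    constructor
    · rintro rfl
      refine ⟨?_, filter_subset _ _⟩
      ext i
      simp
    · rintro ⟨h, hs⟩
      ext i
      simp only [mem_filter]
      constructor
      · rintro ⟨hi, hω⟩
        have : (⟨i, hi⟩ : J) ∈ J.attach.filter (fun i : J => ω i = true) := by simp [hω]
        rw [h] at this
        simpa using this
      · intro hi
        have : (⟨i, hs hi⟩ : J) ∈ s.subtype (· ∈ J) := by simpa using hi
        rw [← h] at this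
        exact ⟨hs hi, by simpa using this⟩
  rw [this]
  refine (measurable_pi_lambda _ fun i => measurable_pi_apply _) ?_
  exact MeasurableSet.of_discrete

theorem measure_opn (p : unitInterval) {J s : Finset ι} (hs : s ⊆ J) :
    Measure.infinitePi (fun _ : ι => edgeLaw p) {ω | opn J ω = s} = ENNReal.ofReal (wt p J s) := by
  have h1 : {ω : ι → Bool | opn J ω = s} = (↑J : Set ι).pi fun i => if i ∈ s then {true} else {false} := by
    ext ω
    simp only [Set.mem_ofPred_eq, opn, Set.mem_pi, mem_coe]
    constructor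
    · rintro rfl i hi
      by_cases h : ω i = true
      · simp [h, hi]
      · simp [h, hi]
    · intro h
      ext i
      simp only [mem_filter]
      constructor
      · rintro ⟨hi, hω⟩
        by_contra his
        have := h i hi
        rw [if_neg his] at this
        simp [hω] at this
      · intro hi
        have := h i (hs hi)
        rw [if_pos hi] at this
        exact ⟨hs hi, this⟩
  rw [h1, Measure.infinitePi_pi _ (fun i _ => MeasurableSet.of_discrete)]
  have h2 : ∀ i ∈ J, edgeLaw p (if i ∈ s then {true} else {false}) =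
      ENNReal.ofReal (if i ∈ s then (p : ℝ) else 1 - p) := by
    intro i _
    split_ifs
    · exact edgeLaw_true p
    · exact edgeLaw_false p
  rw [prod_congr rfl h2, ← ENNReal.ofReal_prod_of_nonneg]
  · congr 1
    rw [prod_ite, prod_const, prod_const, wt]
    have e1 : J.filter (fun i => i ∈ s) = s := by
      ext i; simp only [mem_filter]; exact ⟨fun h => h.2, fun h => ⟨hs h, h⟩⟩
    have e2 : (J.filter (fun i => i ∉ s)).card = J.card - s.card := by
      have := card_sdiff_of_subset hs
      rw [← this]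
      congr 1
      ext i; simp
    rw [e1, e2]
  · intro i _
    split_ifs
    · exact p.2.1
    · exact sub_nonneg.2 p.2.2

/-- Probability of an event determined by the coordinates in `J`. -/
theorem measure_cyl (p : unitInterval) (J : Finset ι) (Q : Finset ι → Prop) :
    Measure.infinitePi (fun _ : ι => edgeLaw p) {ω | Q (opn J ω)} =
      ENNReal.ofReal (ex p J fun s => ind (Q s)) := by
  classical
  have h1 : {ω : ι → Bool | Q (opn J ω)} = ⋃ s ∈ J.powerset.filter Q, {ω | opn J ω = s} := by
    ext ω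
    simp only [Set.mem_ofPred_eq, Set.mem_iUnion, mem_filter, mem_powerset, exists_prop]
    constructor
    · intro h
      exact ⟨opn J ω, ⟨filter_subset _ _, h⟩, rfl⟩
    · rintro ⟨s, ⟨-, h⟩, rfl⟩
      exact h
  rw [h1, measure_biUnion_finset]
  · rw [ex, sum_congr rfl (fun s hs => measure_opn p (mem_powerset.1 (mem_filter.1 hs).1)),
      ← ENNReal.ofReal_sum_of_nonneg (fun s _ => wt_nonneg p.2.1 p.2.2 _ _), sum_filter]
    congr 1
    refine sum_congr rfl fun s _ => ?_
    unfold ind
    split_ifs <;> simp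
  · intro s _ t _ hst
    rw [Function.onFun, Set.disjoint_left]
    rintro ω (h1 : opn J ω = s) (h2 : opn J ω = t)
    exact hst (h1.symm.trans h2)
  · intro s _
    exact measurableSet_opn J s

theorem measurableSet_cyl (J : Finset ι) (Q : Finset ι → Prop) :
    MeasurableSet {ω : ι → Bool | Q (opn J ω)} := by
  classical
  have h1 : {ω : ι → Bool | Q (opn J ω)} = ⋃ s ∈ J.powerset.filter Q, {ω | opn J ω = s} := by
    ext ω
    simp only [Set.mem_ofPred_eq, Set.mem_iUnion, mem_filter, mem_powerset, exists_prop]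
    constructor
    · intro h
      exact ⟨opn J ω, ⟨filter_subset _ _, h⟩, rfl⟩
    · rintro ⟨s, ⟨-, h⟩, rfl⟩
      exact h
  rw [h1]
  exact Finset.measurableSet_biUnion _ fun s _ => measurableSet_opn J s

end Cyl

section Trees

variable {V : Type*} {G : SimpleGraph V}

/-- The event that `x` is the root of an open binary tree of depth `n`. -/
def treeEv (G : SimpleGraph V) (n : ℕ) (x : V) : Set (G.edgeSet → Bool) :=
  {ω | TreeTo (openGraph G ω) n x}

open Classical in
theorem treeEv_eq {n : ℕ} {x : V} {J : Finset G.edgeSet}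
    (hJ : ∀ A ∈ Wit G n x, A ⊆ J) :
    treeEv G n x = {ω | (fun s => ∃ A ∈ Wit G n x, A ⊆ s) (opn J ω)} := by
  ext ω
  simp only [treeEv, Set.mem_ofPred_eq, treeTo_iff]
  refine exists_congr fun A => and_congr_right fun hA => ?_
  constructor
  · intro h e he
    exact mem_filter.2 ⟨hJ A hA he, h e he⟩
  · intro h e he
    exact (mem_filter.1 (h he)).2

open Classical in
theorem exists_J (hG : ∀ v, (G.neighborSet v).Finite) (n : ℕ) (x : V) :
    ∃ J : Finset G.edgeSet, ∀ A ∈ Wit G n x, A ⊆ J :=
  ⟨(finite_support hG n x).toFinset, fun A hA e he => by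
    rw [Set.Finite.mem_toFinset]
    exact ⟨A, hA, he⟩⟩

theorem measurableSet_treeEv (hG : ∀ v, (G.neighborSet v).Finite) (n : ℕ) (x : V) :
    MeasurableSet (treeEv G n x) := by
  classical
  obtain ⟨J, hJ⟩ := exists_J hG n x
  rw [treeEv_eq hJ]
  exact measurableSet_cyl J (fun s => ∃ A ∈ Wit G n x, A ⊆ s)

/-- Probability that `x` is the root of an open binary tree of depth `n`. -/
noncomputable def th (G : SimpleGraph V) (p : unitInterval) (n : ℕ) (x : V) : ℝ :=
  (perc G p).real (treeEv G n x)

open Classical in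
theorem th_eq (p : unitInterval) {n : ℕ} {x : V} {J : Finset G.edgeSet}
    (hJ : ∀ A ∈ Wit G n x, A ⊆ J) :
    th G p n x = ex p J fun s => ind (∃ A ∈ Wit G n x, A ⊆ s) := by
  have h := measure_cyl p J (fun s => ∃ A ∈ Wit G n x, A ⊆ s)
  rw [th, Measure.real, treeEv_eq hJ, perc, h, ENNReal.toReal_ofReal]
  exact sum_nonneg fun s _ => mul_nonneg (wt_nonneg p.2.1 p.2.2 _ _) (ind_nonneg _)

theorem continuous_th (hG : ∀ v, (G.neighborSet v).Finite) (n : ℕ) (x : V) :
    Continuous fun p : unitInterval => th G p n x := by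
  classical
  obtain ⟨J, hJ⟩ := exists_J hG n x
  have : (fun p : unitInterval => th G p n x) =
      fun p : unitInterval => ex p J fun s => ind (∃ A ∈ Wit G n x, A ⊆ s) := by
    funext p; exact th_eq p hJ
  rw [this]
  unfold ex wt
  fun_prop

/-- The recursion, from the van den Berg–Kesten inequality. -/
theorem th_succ_le (hG : ∀ v, (G.neighborSet v).Finite) (p : unitInterval) (n : ℕ) (x : V) :
    th G p (n + 1) x ≤
      ∑ y ∈ (hG x).toFinset, ∑ z ∈ (hG x).toFinset, th G p n y * th G p n z := by
  classical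
  choose K hK using fun y => exists_J hG n y
  obtain ⟨J₀, hJ₀⟩ := exists_J hG (n + 1) x
  set N := (hG x).toFinset with hN
  set J := J₀ ∪ N.biUnion K with hJ
  have hJ1 : ∀ A ∈ Wit G (n + 1) x, A ⊆ J := fun A hA => (hJ₀ A hA).trans subset_union_left
  have hJ2 : ∀ y ∈ N, ∀ A ∈ Wit G n y, A ⊆ J := fun y hy A hA =>
    (hK y A hA).trans ((subset_biUnion_of_mem K hy).trans subset_union_right)
  rw [th_eq p hJ1]
  have h0 := p.2.1
  have h1 := p.2.2
  calc ex p J (fun s => ind (∃ A ∈ Wit G (n + 1) x, A ⊆ s))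
      ≤ ex p J (fun s => ∑ y ∈ N, ∑ z ∈ N,
          ind (∃ B ∈ Wit G n y, ∃ C ∈ Wit G n z, Disjoint B C ∧ B ⊆ s ∧ C ⊆ s)) := by
        refine ex_mono h0 h1 fun s _ => ?_
        by_cases h : ∃ A ∈ Wit G (n + 1) x, A ⊆ s
        · obtain ⟨A, hA, hAs⟩ := h
          obtain ⟨y, z, hy, hz, B, hB, C, hC, hd, hBA, hCA⟩ := Wit.split hA
          have hyN : y ∈ N := by rw [hN, Set.Finite.mem_toFinset]; exact hy
          have hzN : z ∈ N := by rw [hN, Set.Finite.mem_toFinset]; exact hz
          have e1 : ind (∃ A ∈ Wit G (n + 1) x, A ⊆ s) = 1 := by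
            unfold ind; rw [if_pos ⟨A, hA, hAs⟩]
          have e2 : ind (∃ B ∈ Wit G n y, ∃ C ∈ Wit G n z, Disjoint B C ∧ B ⊆ s ∧ C ⊆ s) = 1 := by
            unfold ind; rw [if_pos ⟨B, hB, C, hC, hd, hBA.trans hAs, hCA.trans hAs⟩]
          rw [e1, ← e2]
          refine le_trans ?_ (single_le_sum (f := fun y => ∑ z ∈ N,
            ind (∃ B ∈ Wit G n y, ∃ C ∈ Wit G n z, Disjoint B C ∧ B ⊆ s ∧ C ⊆ s))
            (fun y _ => sum_nonneg fun z _ => ind_nonneg _) hyN)
          exact single_le_sum (f := fun z =>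
            ind (∃ B ∈ Wit G n y, ∃ C ∈ Wit G n z, Disjoint B C ∧ B ⊆ s ∧ C ⊆ s))
            (fun z _ => ind_nonneg _) hzN
        · have e1 : ind (∃ A ∈ Wit G (n + 1) x, A ⊆ s) = 0 := by
            unfold ind; rw [if_neg h]
          rw [e1]
          exact sum_nonneg fun y _ => sum_nonneg fun z _ => ind_nonneg _
    _ = ∑ y ∈ N, ∑ z ∈ N, ex p J (fun s =>
          ind (∃ B ∈ Wit G n y, ∃ C ∈ Wit G n z, Disjoint B C ∧ B ⊆ s ∧ C ⊆ s)) := by
        rw [ex_sum]
        exact sum_congr rfl fun y _ => ex_sum _ _ _ _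
    _ ≤ ∑ y ∈ N, ∑ z ∈ N, th G p n y * th G p n z := by
        refine sum_le_sum fun y hy => sum_le_sum fun z hz => ?_
        rw [th_eq p (hJ2 y hy), th_eq p (hJ2 z hz)]
        exact bk h0 h1 J _ _

end Trees

end Pool.Agent.W_MP_950aae_pr
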