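import Mathlib
import Pool.Agent.W_MP_950aae_pr.Prob

/-! Compactness, transitivity and the first-order transition. -/

namespace Pool.Agent.W_MP_950aae_pr

open MeasureTheory Finset Filter

variable {V : Type*} {G : SimpleGraph V}

/-- König's lemma. -/
theorem exists_full {K : SimpleGraph V} (hK : ∀ v, (K.neighborSet v).Finite) {x : V}
    (h : ∀ n, TreeTo K n x) :
    ∃ F : List Bool → V, F [] = x ∧ Function.Injective F ∧
      ∀ (w : List Bool) (b : Bool), K.Adj (F w) (F (w ++ [b])) := by
  choose f hf using h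
  have hfin : ∀ w : List Bool, {v | ∃ n, w.length ≤ n ∧ f n w = v}.Finite := by
    intro w
    induction w using List.reverseRecOn with
    | nil =>
      refine (Set.finite_singleton x).subset ?_
      rintro v ⟨n, -, rfl⟩
      exact (hf n).1
    | append_singleton w b ih =>
      refine (ih.biUnion fun v _ => hK v).subset ?_
      rintro v ⟨n, hn, rfl⟩
      rw [List.length_append, List.length_singleton] at hn
      refine Set.mem_biUnion (x := f n w) ⟨n, by omega, rfl⟩ ?_
      exact (hf n).2.2 w b (by omega)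
  have hev : ∀ w : List Bool, ∃ v, ∀ᶠ n in (hyperfilter ℕ : Filter ℕ), f n w = v := by
    intro w
    have h1 : ∀ᶠ n in (hyperfilter ℕ : Filter ℕ), ∃ v ∈ {v | ∃ n, w.length ≤ n ∧ f n w = v},
        f n w = v := by
      have h2 : ∀ᶠ n in (hyperfilter ℕ : Filter ℕ), w.length ≤ n :=
        Nat.hyperfilter_le_atTop (eventually_ge_atTop w.length)
      filter_upwards [h2] with n hn
      exact ⟨f n w, ⟨n, hn, rfl⟩, rfl⟩
    obtain ⟨v, -, hv⟩ := (Ultrafilter.eventually_exists_mem_iff (hfin w)).1 h1
    exact ⟨v, hv⟩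
  choose F hF using hev
  have hge : ∀ m : ℕ, ∀ᶠ n in (hyperfilter ℕ : Filter ℕ), m ≤ n := fun m =>
    Nat.hyperfilter_le_atTop (eventually_ge_atTop m)
  refine ⟨F, ?_, ?_, ?_⟩
  · obtain ⟨n, hn⟩ := (hF []).exists
    rw [← hn]; exact (hf n).1
  · intro u v huv
    obtain ⟨n, h1, h2, h3, h4⟩ :=
      ((hF u).and ((hF v).and ((hge u.length).and (hge v.length)))).exists
    exact (hf n).2.1 u v h3 h4 (by rw [h1, h2, huv])
  · intro w b
    obtain ⟨n, h1, h2, h3⟩ := ((hF w).and ((hF (w ++ [b])).and (hge (w.length + 1)))).exists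
    have := (hf n).2.2 w b h3
    rwa [h1, h2] at this

/-- The event that `x` is the root of an open full binary tree. -/
def rootEv (G : SimpleGraph V) (x : V) : Set (G.edgeSet → Bool) := ⋂ n, treeEv G n x

theorem neighborSet_openGraph_finite (hG : ∀ v, (G.neighborSet v).Finite) (ω : G.edgeSet → Bool)
    (v : V) : ((openGraph G ω).neighborSet v).Finite :=
  (hG v).subset fun _ hu => hu.1

theorem treeEvent_eq (hG : ∀ v, (G.neighborSet v).Finite) :
    treeEvent G = ⋃ x, rootEv G x := by
  ext ω
  simp only [treeEvent, rootEv, Set.mem_ofPred_eq, Set.mem_iUnion, Set.mem_iInter, treeEv]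
  constructor
  · rintro ⟨C, ⟨φ⟩⟩
    refine ⟨(φ.toHom [] : C), fun n => ⟨fun w => (φ.toHom w : C), rfl, ?_, ?_⟩⟩
    · intro u v _ _ huv
      exact φ.injective' (Subtype.ext huv)
    · intro w b _
      exact φ.toHom.map_rel (Or.inl ⟨b, rfl⟩ : T2.Adj w (w ++ [b]))
  · rintro ⟨x, hx⟩
    obtain ⟨F, hF0, hFi, hFa⟩ := exists_full (neighborSet_openGraph_finite hG ω) hx
    have hmem : ∀ w, F w ∈ ((openGraph G ω).connectedComponentMk x).supp := by
      intro w
      induction w using List.reverseRecOn with
      | nil => rw [hF0]; rfl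
      | append_singleton w b ih =>
        rw [SimpleGraph.ConnectedComponent.mem_supp_iff] at ih ⊢
        rw [← ih]
        exact (SimpleGraph.ConnectedComponent.connectedComponentMk_eq_of_adj (hFa w b)).symm
    refine ⟨(openGraph G ω).connectedComponentMk x, ⟨⟨⟨fun w => ⟨F w, hmem w⟩, ?_⟩, ?_⟩⟩⟩
    · rintro u v (⟨b, rfl⟩ | ⟨b, rfl⟩)
      · exact hFa u b
      · exact (hFa v b).symm
    · intro u v huv
      exact hFi (congrArg Subtype.val huv)

theorem treeEv_antitone (x : V) : Antitone fun n => treeEv G n x :=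
  fun _ _ hmn _ h => TreeTo.mono hmn h

instance (p : unitInterval) : IsProbabilityMeasure (perc G p) := by
  unfold perc; infer_instance

theorem tendsto_th (hG : ∀ v, (G.neighborSet v).Finite) (p : unitInterval) (x : V) :
    Tendsto (fun n => th G p n x) atTop (nhds ((perc G p).real (rootEv G x))) := by
  have h := tendsto_measure_iInter_atTop (μ := perc G p) (s := fun n => treeEv G n x)
    (fun n => (measurableSet_treeEv hG n x).nullMeasurableSet) (treeEv_antitone x)
    ⟨0, measure_ne_top _ _⟩
  exact (ENNReal.tendsto_toReal (measure_ne_top _ _)).comp h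

/-- Invariance under automorphisms. -/
theorem th_iso (p : unitInterval) (φ : G ≃g G) (n : ℕ) (x : V) :
    th G p n (φ x) = th G p n x := by
  set e : G.edgeSet ≃ G.edgeSet := φ.mapEdgeSet with he
  have h1 := Measure.infinitePi_map_piCongrLeft (X := fun _ : G.edgeSet => Bool)
    (fun _ => edgeLaw p) e
  have h2 : perc G p (treeEv G n (φ x)) = perc G p (treeEv G n x) := by
    conv_lhs => rw [perc, ← h1]
    rw [MeasurableEquiv.map_apply]
    change perc G p _ = _
    congr 1
    ext ω
    have hopen : ∀ u v, (openGraph G ((MeasurableEquiv.piCongrLeft (fun _ => Bool) e) ω)).Adj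
        (φ u) (φ v) ↔ (openGraph G ω).Adj u v := by
      intro u v
      have key : ∀ (h : G.Adj u v), (MeasurableEquiv.piCongrLeft (fun _ => Bool) e) ω
          ⟨s(φ u, φ v), φ.map_rel_iff.2 h⟩ = ω ⟨s(u, v), h⟩ := by
        intro h
        have : (⟨s(φ u, φ v), φ.map_rel_iff.2 h⟩ : G.edgeSet) = e ⟨s(u, v), h⟩ := rfl
        rw [this]
        exact MeasurableEquiv.piCongrLeft_apply_apply ..
      constructor
      · rintro ⟨h, hω⟩
        have h' : G.Adj u v := φ.map_rel_iff.1 h
        exact ⟨h', by rw [← key h']; exact hω⟩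
      · rintro ⟨h, hω⟩
        exact ⟨φ.map_rel_iff.2 h, by rw [key h]; exact hω⟩
    simp only [Set.mem_preimage, treeEv, Set.mem_ofPred_eq]
    constructor
    · rintro ⟨f, hf1, hf2, hf3⟩
      refine ⟨fun w => φ.symm (f w), ?_, ?_, ?_⟩
      · change φ.symm (f []) = x
        rw [hf1]; exact φ.symm_apply_apply x
      · intro u v hu hv huv
        exact hf2 u v hu hv (φ.symm.injective huv)
      · intro w b hw
        rw [← hopen]
        have := hf3 w b hw
        simpa using this
    · rintro ⟨f, hf1, hf2, hf3⟩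
      refine ⟨fun w => φ (f w), ?_, ?_, ?_⟩
      · change φ (f []) = φ x
        rw [hf1]
      · intro u v hu hv huv
        exact hf2 u v hu hv (φ.injective huv)
      · intro w b hw
        exact (hopen _ _).2 (hf3 w b hw)
  rw [th, th, Measure.real, Measure.real, h2]

/-- In a transitive graph the probability is either zero or at least `1 / D²`. -/
theorem one_le_of_pos (hG : ∀ v, (G.neighborSet v).Finite)
    (htr : ∀ u v : V, ∃ φ : G ≃g G, φ u = v) (p : unitInterval) (x : V)
    (hpos : 0 < (perc G p).real (rootEv G x)) (n : ℕ) :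
    1 ≤ ((hG x).toFinset.card : ℝ) ^ 2 * th G p n x := by
  set D : ℝ := ((hG x).toFinset.card : ℝ) with hD
  have hth : ∀ n y, th G p n y = th G p n x := by
    intro n y
    obtain ⟨φ, rfl⟩ := htr x y
    exact th_iso p φ n x
  have hrec : ∀ n, th G p (n + 1) x ≤ D ^ 2 * (th G p n x * th G p n x) := by
    intro n
    refine (th_succ_le hG p n x).trans (le_of_eq ?_)
    rw [sum_congr rfl fun y _ => sum_congr rfl fun z _ => by rw [hth n y, hth n z]]
    rw [sum_const, sum_const, nsmul_eq_mul, nsmul_eq_mul, hD]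
    ring
  set τ := (perc G p).real (rootEv G x) with hτ
  have hlim := tendsto_th hG p x
  have h1 : τ ≤ D ^ 2 * (τ * τ) :=
    le_of_tendsto_of_tendsto' (hlim.comp (tendsto_add_atTop_nat 1))
      ((hlim.mul hlim).const_mul _) hrec
  have h2 : 1 ≤ D ^ 2 * τ := by
    by_contra hlt
    push Not at hlt
    nlinarith
  have h3 : τ ≤ th G p n x := by
    rw [hτ, th]
    exact measureReal_mono (Set.iInter_subset _ n)
  exact h2.trans (mul_le_mul_of_nonneg_left h3 (sq_nonneg _))

/-- **The first-order transition**, for every transitive locally finite graph which contains a full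
binary tree. -/
theorem main [Countable V] (hG : ∀ v, (G.neighborSet v).Finite)
    (htr : ∀ u v : V, ∃ φ : G ≃g G, φ u = v) (hT : T2.IsContained G) :
    0 < perc G (pbt G) (treeEvent G) := by
  obtain ⟨⟨ψ, hψ⟩⟩ := hT
  set x : V := ψ [] with hx
  -- at `p = 1` all edges are open
  have hone : perc G 1 (treeEvent G) = 1 := by
    have h1 : edgeLaw 1 = Measure.dirac true := by
      simp [edgeLaw]
    have h2 : perc G 1 = Measure.dirac fun _ => true := by
      rw [perc, h1]
      exact Measure.infinitePi_dirac _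
    have hmeas : MeasurableSet (treeEvent G) := by
      rw [treeEvent_eq hG]
      exact MeasurableSet.iUnion fun x => MeasurableSet.iInter fun n => measurableSet_treeEv hG n x
    rw [h2, Measure.dirac_apply' _ hmeas, Set.indicator_of_mem, Pi.one_apply]
    rw [treeEvent_eq hG]
    refine Set.mem_iUnion.2 ⟨x, Set.mem_iInter.2 fun n => ⟨ψ, rfl, ?_, ?_⟩⟩
    · intro u v _ _ huv
      exact hψ huv
    · intro w b _
      have : G.Adj (ψ w) (ψ (w ++ [b])) := ψ.map_rel (Or.inl ⟨b, rfl⟩ : T2.Adj w (w ++ [b]))
      exact ⟨this, rfl⟩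
  set S : Set unitInterval := {p : unitInterval | perc G p (treeEvent G) = 1} with hS
  set D : ℝ := ((hG x).toFinset.card : ℝ) with hD
  -- the lower bound on `S`
  have hlow : ∀ p ∈ S, ∀ n, 1 ≤ D ^ 2 * th G p n x := by
    intro p hp n
    have hp' : perc G p (⋃ y, rootEv G y) = 1 := by
      rw [← treeEvent_eq hG]; exact hp
    have hy : ∃ y, perc G p (rootEv G y) ≠ 0 := by
      by_contra hcon
      push Not at hcon
      have := measure_iUnion_null (μ := perc G p) hcon
      rw [this] at hp'
      exact zero_ne_one hp'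
    obtain ⟨y, hy⟩ := hy
    have hpos : 0 < (perc G p).real (rootEv G y) := by
      rw [Measure.real]
      exact ENNReal.toReal_pos hy (measure_ne_top _ _)
    obtain ⟨φ, hφ⟩ := htr y x
    have hlx := tendsto_th hG p x
    have hly := tendsto_th hG p y
    have heq : (perc G p).real (rootEv G x) = (perc G p).real (rootEv G y) := by
      refine tendsto_nhds_unique hlx ?_
      refine hly.congr fun n => ?_
      rw [← hφ, th_iso]
    rw [← heq] at hpos
    exact one_le_of_pos hG htr p x hpos n
  -- the lower bound at the critical value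
  have hcrit : ∀ n, 1 ≤ D ^ 2 * th G (pbt G) n x := by
    intro n
    have hcl : IsClosed {p : unitInterval | 1 ≤ D ^ 2 * th G p n x} :=
      isClosed_le continuous_const (continuous_const.mul (continuous_th hG n x))
    have hsub : S ⊆ {p : unitInterval | 1 ≤ D ^ 2 * th G p n x} := fun p hp => hlow p hp n
    exact hcl.closure_subset_iff.2 hsub (sInf_mem_closure ⟨1, hone⟩)
  have hfin : 1 ≤ D ^ 2 * (perc G (pbt G)).real (rootEv G x) :=
    le_of_tendsto_of_tendsto' tendsto_const_nhds ((tendsto_th hG _ x).const_mul _) hcrit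
  have hpos : 0 < (perc G (pbt G)).real (rootEv G x) := by
    by_contra hcon
    have := mul_nonpos_of_nonneg_of_nonpos (sq_nonneg D) (not_lt.1 hcon)
    linarith
  have h3 : 0 < perc G (pbt G) (rootEv G x) := by
    rw [pos_iff_ne_zero]
    intro h0
    rw [Measure.real, h0] at hpos
    simp at hpos
  refine h3.trans_le (measure_mono ?_)
  rw [treeEvent_eq hG]
  exact Set.subset_iUnion _ x

end Pool.Agent.W_MP_950aae_pr
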